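import Mathlib
import Pool.Agent.W42.RG.Defs2

set_option autoImplicit false
set_option linter.unusedSectionVars false
set_option linter.unusedVariables false

/-!
Sums of spread out powers of a number of absolute value one which is not a root of unity do not
vanish.
-/

namespace Pool.Agent.W672.LY

open Finset Filter Topology Pool.Agent.W42.RG

/-- the case of a valuation -/
theorem ari_val {Γ : Type} [LinearOrderedCommGroupWithZero Γ] (v : Valuation ℂ Γ) (ω : ℂ)
    (hω : 1 < v ω) (N : ℕ) (c : Fin N → ℂ) (hc : ∃ i, c i ≠ 0) :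
    ∃ M : ℕ, ∀ n : Fin N → ℤ, (∀ i j, i ≠ j → (M : ℤ) ≤ |n i - n j|) →
      ∑ i, c i * ω ^ (n i) ≠ 0 := by
  classical
  have hinj : ∀ a b : ℤ, v ω ^ a = v ω ^ b → a = b := by
    intro a b h
    exact (zpow_right_strictMono₀ hω).injective h
  have hω0 : v ω ≠ 0 := (lt_trans zero_lt_one hω).ne'
  have hwz : ω ≠ 0 := by
    intro h
    rw [h, map_zero] at hω0
    exact hω0 rfl
  -- the exceptional gaps
  have hex : ∀ p : Fin N × Fin N, ∃ m : ℤ, c p.1 ≠ 0 → ∀ k : ℤ, v (c p.1) * v ω ^ k = v (c p.2) →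
      k = m := by
    intro p
    by_cases h : ∃ m : ℤ, v (c p.1) * v ω ^ m = v (c p.2)
    · obtain ⟨m, hm⟩ := h
      refine ⟨m, fun h1 k hk => hinj _ _ ?_⟩
      have h2 : v (c p.1) ≠ 0 := (Valuation.ne_zero_iff v).2 h1
      exact mul_left_cancel₀ h2 (hk.trans hm.symm)
    · exact ⟨0, fun _ k hk => (h ⟨k, hk⟩).elim⟩
  choose m hm using hex
  refine ⟨(∑ p : Fin N × Fin N, (m p).natAbs) + 1, fun n hn hs => ?_⟩
  have hne : ∀ i j, i ≠ j → c i ≠ 0 → v (c i * ω ^ (n i)) ≠ v (c j * ω ^ (n j)) := by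
    intro i j hij hi h
    rw [map_mul, map_mul, map_zpow₀, map_zpow₀] at h
    have h1 : v (c i) * v ω ^ (n i - n j) = v (c j) := by
      rw [zpow_sub₀ hω0, ← mul_div_assoc, h, mul_div_assoc, div_self (zpow_ne_zero _ hω0), mul_one]
    have h2 := hm (i, j) hi _ h1
    have h3 := hn i j hij
    rw [h2] at h3
    have h4 : (m (i, j)).natAbs ≤ ∑ p : Fin N × Fin N, (m p).natAbs :=
      Finset.single_le_sum (f := fun p => (m p).natAbs) (fun _ _ => Nat.zero_le _)
        (Finset.mem_univ _)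
    have h5 : |m (i, j)| = ((m (i, j)).natAbs : ℤ) := Int.abs_eq_natAbs _
    rw [h5] at h3
    have h6 : (∑ p : Fin N × Fin N, (m p).natAbs) + 1 ≤ (m (i, j)).natAbs := by exact_mod_cast h3
    omega
  obtain ⟨i₀, hi₀⟩ := hc
  obtain ⟨k, hk, hmax⟩ := Finset.exists_max_image (Finset.univ.filter fun i => c i ≠ 0)
    (fun i => v (c i * ω ^ (n i))) ⟨i₀, by simpa using hi₀⟩
  have hck : c k ≠ 0 := by simpa using hk
  have hvk : v (c k * ω ^ (n k)) ≠ 0 :=
    (Valuation.ne_zero_iff v).2 (mul_ne_zero hck (zpow_ne_zero _ hwz))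
  have hlt : v (∑ i ∈ Finset.univ.erase k, c i * ω ^ (n i)) < v (c k * ω ^ (n k)) := by
    apply Valuation.map_sum_lt v hvk
    intro i hi
    have hik : i ≠ k := by simpa using hi
    by_cases h0 : c i = 0
    · rw [h0, zero_mul, map_zero]
      exact zero_lt_iff.2 hvk
    · exact lt_of_le_of_ne (hmax i (by simpa using h0)) (hne i k hik h0)
  rw [← Finset.add_sum_erase _ _ (Finset.mem_univ k)] at hs
  have h1 := Valuation.map_add_eq_of_lt_left v hlt
  rw [hs, map_zero] at h1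
  exact hvk h1.symm

/-- the case of an absolute value greater than one -/
theorem ari_abs (z : ℂ) (hz : 1 < ‖z‖) (N : ℕ) (c : Fin N → ℂ) (hc : ∃ i, c i ≠ 0) :
    ∃ M : ℕ, ∀ n : Fin N → ℤ, (∀ i j, i ≠ j → (M : ℤ) ≤ |n i - n j|) →
      ∑ i, c i * z ^ (n i) ≠ 0 := by
  classical
  have hz0 : z ≠ 0 := by
    intro h
    rw [h, norm_zero] at hz
    linarith
  have hzp : 0 < ‖z‖ := by linarith
  set B : ℝ := ∑ i, ‖c i‖ with hB
  have hev : ∀ᶠ M : ℕ in atTop, ∀ j, c j ≠ 0 → B < ‖c j‖ * ‖z‖ ^ M := by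
    rw [eventually_all]
    intro j
    by_cases hj : c j = 0
    · exact Eventually.of_forall fun M h => (h hj).elim
    · have h1 : Tendsto (fun M : ℕ => ‖c j‖ * ‖z‖ ^ M) atTop atTop :=
        (tendsto_pow_atTop_atTop_of_one_lt hz).const_mul_atTop (norm_pos_iff.2 hj)
      filter_upwards [h1.eventually_gt_atTop B] with M hM _ using hM
  obtain ⟨M₀, hM₀⟩ := hev.exists
  obtain ⟨M, hM0, hM⟩ : ∃ M : ℕ, 0 < M ∧ ∀ j, c j ≠ 0 → B < ‖c j‖ * ‖z‖ ^ M := by
    obtain ⟨M, h1, h2⟩ := (hev.and (eventually_gt_atTop 0)).exists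
    exact ⟨M, h2, h1⟩
  refine ⟨M, fun n hn hs => ?_⟩
  obtain ⟨i₀, hi₀⟩ := hc
  obtain ⟨k, hk, hmax⟩ := Finset.exists_max_image (Finset.univ.filter fun i => c i ≠ 0)
    (fun i => n i) ⟨i₀, by simpa using hi₀⟩
  have hck : c k ≠ 0 := by simpa using hk
  have hle : ∀ i ∈ Finset.univ.erase k, ‖c i * z ^ (n i)‖ ≤ ‖c i‖ * ‖z‖ ^ (n k - (M : ℤ)) := by
    intro i hi
    have hik : i ≠ k := by simpa using hi
    by_cases h0 : c i = 0
    · simp [h0]
    · rw [norm_mul, norm_zpow]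
      refine mul_le_mul_of_nonneg_left ?_ (norm_nonneg _)
      refine zpow_le_zpow_right₀ hz.le ?_
      have h1 := hn i k hik
      have h2 : n i ≤ n k := hmax i (by simpa using h0)
      rw [abs_sub_comm, abs_of_nonneg (by omega)] at h1
      omega
  have h1 : ‖∑ i ∈ Finset.univ.erase k, c i * z ^ (n i)‖ ≤ B * ‖z‖ ^ (n k - (M : ℤ)) := by
    refine (norm_sum_le_of_le _ hle).trans ?_
    rw [← Finset.sum_mul]
    refine mul_le_mul_of_nonneg_right ?_ (zpow_nonneg hzp.le _)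
    exact Finset.sum_le_sum_of_subset_of_nonneg (Finset.erase_subset _ _)
      fun _ _ _ => norm_nonneg _
  rw [← Finset.add_sum_erase _ _ (Finset.mem_univ k)] at hs
  have h2 : ‖c k * z ^ (n k)‖ = ‖∑ i ∈ Finset.univ.erase k, c i * z ^ (n i)‖ := by
    rw [eq_neg_of_add_eq_zero_left hs, norm_neg]
  rw [norm_mul, norm_zpow] at h2
  have h3 := hM k hck
  have h4 : ‖z‖ ^ (n k) = ‖z‖ ^ (n k - (M : ℤ)) * ‖z‖ ^ M := by
    rw [← zpow_natCast, ← zpow_add₀ hzp.ne']
    congr 1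
    ring
  rw [h4] at h2
  have h5 : 0 < ‖z‖ ^ (n k - (M : ℤ)) := zpow_pos hzp _
  have h6 : B * ‖z‖ ^ (n k - (M : ℤ)) < ‖c k‖ * ‖z‖ ^ M * ‖z‖ ^ (n k - (M : ℤ)) :=
    mul_lt_mul_of_pos_right h3 h5
  have h7 : ‖c k‖ * (‖z‖ ^ (n k - (M : ℤ)) * ‖z‖ ^ M) = ‖c k‖ * ‖z‖ ^ M * ‖z‖ ^ (n k - (M : ℤ)) := by
    ring
  linarith

/-- the case of an absolute value different from one -/
theorem ari_abs' (z : ℂ) (hz0 : z ≠ 0) (hz : ‖z‖ ≠ 1) (N : ℕ) (c : Fin N → ℂ)
    (hc : ∃ i, c i ≠ 0) :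
    ∃ M : ℕ, ∀ n : Fin N → ℤ, (∀ i j, i ≠ j → (M : ℤ) ≤ |n i - n j|) →
      ∑ i, c i * z ^ (n i) ≠ 0 := by
  rcases lt_or_gt_of_ne hz with h | h
  · have h1 : 1 < ‖z⁻¹‖ := by
      rw [norm_inv]
      exact (one_lt_inv₀ (norm_pos_iff.2 hz0)).2 h
    obtain ⟨M, hM⟩ := ari_abs z⁻¹ h1 N c hc
    refine ⟨M, fun n hn => ?_⟩
    have h2 := hM (fun i => - n i) (fun i j hij => by
      have h3 := hn i j hij
      have h4 : |-n i - -n j| = |n i - n j| := by
        rw [show -n i - -n j = -(n i - n j) by ring, abs_neg]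
      rw [h4]
      exact h3)
    simpa [inv_zpow', zpow_neg] using h2
  · exact ari_abs z h N c hc

/-- an element of `ℂ` which is not an algebraic integer is not contained in some valuation ring -/
theorem exists_val (ω : ℂ) (h : ¬ IsIntegral ℤ ω) :
    ∃ V : ValuationSubring ℂ, ω ∉ V := by
  by_contra hV
  push Not at hV
  apply h
  have h1 : ω ∈ (⨅ V : {V : ValuationSubring ℂ // (∅ : Set ℂ) ⊆ V.toSubring}, V.1.toSubring) := by
    rw [Subring.mem_iInf]
    intro V
    exact hV V.1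
  rw [iInf_valuationSubring_superset] at h1
  have h2 : IsIntegral (Subring.closure (∅ : Set ℂ)) ω := h1
  have h3 : Algebra.IsIntegral ℤ (Subring.closure (∅ : Set ℂ)) := by
    constructor
    rintro ⟨x, hx⟩
    rw [Subring.closure_empty, Subring.mem_bot] at hx
    obtain ⟨n, rfl⟩ := hx
    have h4 : (⟨(n : ℂ), by assumption⟩ : Subring.closure (∅ : Set ℂ)) =
        algebraMap ℤ (Subring.closure (∅ : Set ℂ)) n := by
      ext
      simp
    rw [h4]
    exact isIntegral_algebraMap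
  exact isIntegral_trans ω h2

theorem t_ARI : S_ARI := by
  intro ω hω1 hω N c hc
  by_cases hint : IsIntegral ℤ ω
  · -- algebraic integer
    have hQ : IsIntegral ℚ ω := hint.tower_top
    have hω0 : ω ≠ 0 := by
      intro h
      rw [h, norm_zero] at hω1
      exact zero_ne_one hω1
    let K := IntermediateField.adjoin ℚ {ω}
    have : FiniteDimensional ℚ K := IntermediateField.adjoin.finiteDimensional hQ
    have : NumberField K := { to_charZero := inferInstance, to_finiteDimensional := inferInstance }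
    let w : K := IntermediateField.AdjoinSimple.gen ℚ ω
    have hw : algebraMap K ℂ w = ω := IntermediateField.AdjoinSimple.algebraMap_gen ℚ ω
    have hwi : IsIntegral ℤ w := by
      rw [← isIntegral_algebraMap_iff (B := ℂ) (algebraMap K ℂ).injective, hw]
      exact hint
    obtain ⟨σ, hσ⟩ : ∃ σ : K →+* ℂ, ‖σ w‖ ≠ 1 := by
      by_contra hcon
      push Not at hcon
      obtain ⟨n, hn, h1⟩ := NumberField.Embeddings.pow_eq_one_of_norm_eq_one K ℂ hwi hcon
      apply hω n hn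
      rw [← hw, ← map_pow, h1, map_one]
    obtain ⟨j, hj⟩ := hc
    obtain ⟨f, hf⟩ : ∃ f : Module.Dual K ℂ, f (c j) ≠ 0 := by
      by_contra hcon
      push Not at hcon
      exact hj ((Module.forall_dual_apply_eq_zero_iff K (c j)).1 hcon)
    have hw0 : w ≠ 0 := by
      intro h
      rw [h, map_zero] at hw
      exact hω0 hw.symm
    obtain ⟨M, hM⟩ := ari_abs' (σ w) ((map_ne_zero σ).2 hw0) hσ N (fun i => σ (f (c i)))
      ⟨j, (map_ne_zero σ).2 hf⟩
    refine ⟨M, fun n hn hs => hM n hn ?_⟩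
    have h1 : ∑ i, w ^ (n i) * f (c i) = 0 := by
      have h2 : f (∑ i, c i * ω ^ (n i)) = ∑ i, w ^ (n i) * f (c i) := by
        rw [map_sum]
        refine Finset.sum_congr rfl fun i _ => ?_
        have h3 : c i * ω ^ (n i) = (w ^ (n i)) • c i := by
          rw [Algebra.smul_def, map_zpow₀, hw, mul_comm]
        rw [h3, map_smul, smul_eq_mul]
      rw [← h2, hs, map_zero]
    have h2 : σ (∑ i, w ^ (n i) * f (c i)) = ∑ i, σ (f (c i)) * σ w ^ (n i) := by
      rw [map_sum]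
      refine Finset.sum_congr rfl fun i _ => ?_
      rw [map_mul, map_zpow₀, mul_comm]
    rw [← h2, h1, map_zero]
  · obtain ⟨V, hV⟩ := exists_val ω hint
    have h1 : 1 < V.valuation ω := by
      rw [← not_le, V.valuation_le_one_iff]
      exact hV
    exact ari_val V.valuation ω h1 N c hc

end Pool.Agent.W672.LY
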