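import Mathlib
import Pool.Agent.W42.RG.Defs2

set_option autoImplicit false
set_option linter.unusedSectionVars false
set_option linter.unusedVariables false

/-!
Limits of conjugates of small elements are nilpotent.
-/

namespace Pool.Agent.W672.LY

open Finset Filter Topology Pool.Agent.W42.RG

/-- a limit of operators having the characteristic polynomials of operators tending to zero is
nilpotent -/
theorem nil_limit {V Q : Type} [AddCommGroup V] [Module ℝ V] [FiniteDimensional ℝ V]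
    [TopologicalSpace V] [IsTopologicalAddGroup V] [ContinuousSMul ℝ V] [T2Space V]
    [AddCommGroup Q] [Module ℝ Q] [FiniteDimensional ℝ Q] (D : V →ₗ[ℝ] Module.End ℝ Q)
    (S Y : ℕ → V) (s : V) (hS : Tendsto S atTop (𝓝 s)) (hY : Tendsto Y atTop (𝓝 0))
    (h : ∀ᶠ n in atTop, (D (S n)).charpoly = (D (Y n)).charpoly) :
    ∃ c : ℕ, (D s) ^ c = 0 := by
  classical
  let b := Module.finBasis ℝ Q
  let m : V →ₗ[ℝ] Matrix (Fin (Module.finrank ℝ Q)) (Fin (Module.finrank ℝ Q)) ℝ :=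
    (LinearMap.toMatrix b b : (Q →ₗ[ℝ] Q) →ₗ[ℝ] _) ∘ₗ D
  have hm : Continuous m := LinearMap.continuous_of_finiteDimensional m
  have hcont : ∀ t : ℝ, Continuous fun Z : V => ((D Z).charpoly).eval t := by
    intro t
    have h1 : (fun Z : V => ((D Z).charpoly).eval t) =
        fun Z : V => (Matrix.scalar _ t - m Z).det := by
      funext Z
      rw [← LinearMap.charpoly_toMatrix (D Z) b, Matrix.eval_charpoly]
      rfl
    rw [h1]
    exact (continuous_const.sub hm).matrix_det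
  have hlim : ∀ t : ℝ, ((D s).charpoly).eval t = ((D 0).charpoly).eval t := by
    intro t
    have h1 : Tendsto (fun n => ((D (S n)).charpoly).eval t) atTop (𝓝 (((D s).charpoly).eval t)) :=
      ((hcont t).tendsto s).comp hS
    have h2 : Tendsto (fun n => ((D (Y n)).charpoly).eval t) atTop (𝓝 (((D 0).charpoly).eval t)) :=
      ((hcont t).tendsto 0).comp hY
    have h3 : Tendsto (fun n => ((D (S n)).charpoly).eval t) atTop
        (𝓝 (((D 0).charpoly).eval t)) := by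
      refine h2.congr' ?_
      filter_upwards [h] with n hn
      rw [hn]
    exact tendsto_nhds_unique h1 h3
  have hpoly : (D s).charpoly = (D 0).charpoly := Polynomial.funext hlim
  rw [map_zero, LinearMap.charpoly_zero] at hpoly
  refine ⟨Module.finrank ℝ Q, ?_⟩
  have h1 := LinearMap.aeval_self_charpoly (D s)
  rw [hpoly, map_pow, Polynomial.aeval_X] at h1
  exact h1

/-- the coefficients -/
theorem coef_low (q : ℤ → ℝ) (C : ℝ) (d : ℕ) (hd : 1 ≤ d)
    (h : ∀ n : ℤ, |q n| ≤ C * (1 + |(n : ℝ)|) ^ (d - 1)) :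
    Tendsto (fun n : ℕ => (d.factorial : ℝ) / (n : ℝ) ^ d * q n) atTop (𝓝 0) := by
  have hb : Tendsto (fun n : ℕ => (d.factorial : ℝ) * (|C| * 2 ^ (d - 1)) * ((n : ℝ))⁻¹) atTop
      (𝓝 0) := by
    have h1 := (tendsto_inv_atTop_nhds_zero_nat (𝕜 := ℝ)).const_mul
      ((d.factorial : ℝ) * (|C| * 2 ^ (d - 1)))
    rwa [mul_zero] at h1
  refine squeeze_zero_norm' ?_ hb
  filter_upwards [eventually_ge_atTop 1] with n hn
  have hn1 : (1 : ℝ) ≤ n := by exact_mod_cast hn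
  have hn0 : (0 : ℝ) < n := by linarith
  have h1 := h n
  have h2 : |q n| ≤ |C| * (2 * (n : ℝ)) ^ (d - 1) := by
    refine h1.trans ?_
    have h3 : |((n : ℤ) : ℝ)| = n := by
      rw [Int.cast_natCast, Nat.abs_cast]
    rw [h3]
    have h4 : (1 + (n : ℝ)) ^ (d - 1) ≤ (2 * (n : ℝ)) ^ (d - 1) :=
      pow_le_pow_left₀ (by linarith) (by linarith) _
    calc C * (1 + (n : ℝ)) ^ (d - 1) ≤ |C| * (1 + (n : ℝ)) ^ (d - 1) :=
          mul_le_mul_of_nonneg_right (le_abs_self C) (by positivity)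
      _ ≤ |C| * (2 * (n : ℝ)) ^ (d - 1) := mul_le_mul_of_nonneg_left h4 (abs_nonneg _)
  rw [Real.norm_eq_abs, abs_mul, abs_of_nonneg (by positivity : (0 : ℝ) ≤ (d.factorial : ℝ) / (n : ℝ) ^ d)]
  calc (d.factorial : ℝ) / (n : ℝ) ^ d * |q n|
      ≤ (d.factorial : ℝ) / (n : ℝ) ^ d * (|C| * (2 * (n : ℝ)) ^ (d - 1)) :=
        mul_le_mul_of_nonneg_left h2 (by positivity)
    _ = (d.factorial : ℝ) * (|C| * 2 ^ (d - 1)) * ((n : ℝ))⁻¹ := by
        obtain ⟨e, rfl⟩ : ∃ e, d = e + 1 := ⟨d - 1, by omega⟩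
        rw [Nat.add_sub_cancel, mul_pow, pow_succ]
        field_simp

theorem coef_top (q : ℤ → ℝ) (C : ℝ) (d : ℕ) (hd : 1 ≤ d)
    (h : ∀ n : ℤ, |q n - (n : ℝ) ^ d / d.factorial| ≤ C * (1 + |(n : ℝ)|) ^ (d - 1)) :
    Tendsto (fun n : ℕ => (d.factorial : ℝ) / (n : ℝ) ^ d * q n) atTop (𝓝 1) := by
  have h1 := coef_low (fun n => q n - (n : ℝ) ^ d / d.factorial) C d hd h
  have h2 := h1.add_const 1
  rw [zero_add] at h2
  refine h2.congr' ?_
  filter_upwards [eventually_ge_atTop 1] with n hn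
  have hn1 : (1 : ℝ) ≤ n := by exact_mod_cast hn
  have hn0 : (n : ℝ) ≠ 0 := by positivity
  have hf : (d.factorial : ℝ) ≠ 0 := by exact_mod_cast d.factorial_ne_zero
  rw [Int.cast_natCast]
  field_simp
  ring

theorem t_NILL (hR : S_RPOLY) : S_NILL := by
  intro 𝔤 _ _ _ _ _ _ _ A hA K hK ω hω φ d hd hφ ζ
  classical
  have hω0 : ω ≠ 0 := by
    intro h
    rw [h, norm_zero] at hω
    exact zero_ne_one hω
  obtain ⟨q, C, hlow, htop, hexp⟩ := hR 𝔤 A (K : Submodule ℝ 𝔤) hK ω hω0 φ d hd hφ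
  have : FiniteDimensional ℝ (𝔤 ⧸ K) :=
    inferInstanceAs (FiniteDimensional ℝ (𝔤 ⧸ (K : Submodule ℝ 𝔤)))
  let D : 𝔤 →ₗ[ℝ] Module.End ℝ (𝔤 ⧸ K) := (LieModule.toEnd ℝ 𝔤 (𝔤 ⧸ K) : 𝔤 →ₗ[ℝ] _)
  let π : 𝔤 →ₗ[ℝ] 𝔤 ⧸ K := (LieSubmodule.Quotient.mk' K : 𝔤 →ₗ[ℝ] 𝔤 ⧸ K)
  have hπ : Function.Surjective π := LieSubmodule.Quotient.surjective_mk' K
  have hπ0 : ∀ y, π y = 0 ↔ y ∈ K := fun y => LieSubmodule.Quotient.mk_eq_zero K
  have hD : ∀ Z y : 𝔤, D Z (π y) = π ⁅Z, y⁆ := by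
    intro Z y
    exact ((LieSubmodule.Quotient.mk' K).map_lie Z y).symm
  have hDK : ∀ Z ∈ K, D Z = 0 := by
    intro Z hZ
    refine LinearMap.ext fun y => ?_
    obtain ⟨y, rfl⟩ := hπ y
    rw [hD, LinearMap.zero_apply, hπ0]
    exact lie_mem_left ℝ 𝔤 K Z y hZ
  -- the operator induced by `A`
  have hmap : (K : Submodule ℝ 𝔤).map (A : 𝔤 →ₗ[ℝ] 𝔤) = (K : Submodule ℝ 𝔤) := by
    ext y
    constructor
    · rintro ⟨x, hx, rfl⟩
      exact (hK x).2 hx
    · intro hy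
      refine ⟨A.symm y, (hK _).1 ?_, A.apply_symm_apply y⟩
      rw [A.apply_symm_apply]
      exact hy
  let a : (𝔤 ⧸ K) ≃ₗ[ℝ] (𝔤 ⧸ K) := Submodule.Quotient.equiv (K : Submodule ℝ 𝔤)
    (K : Submodule ℝ 𝔤) A hmap
  have ha : ∀ y, a (π y) = π (A y) := fun y => rfl
  have hconj : ∀ Z, D (A Z) = a.conj (D Z) := by
    intro Z
    refine LinearMap.ext fun y => ?_
    obtain ⟨y, rfl⟩ := a.surjective y
    obtain ⟨y, rfl⟩ := hπ y
    rw [LinearEquiv.conj_apply_apply, LinearEquiv.symm_apply_apply, ha, hD, hD, ha, hA]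
  have hchar : ∀ (n : ℕ) (Z : 𝔤), (D ((A ^ (n : ℤ)) Z)).charpoly = (D Z).charpoly := by
    intro n Z
    rw [zpow_natCast]
    induction n with
    | zero => simp
    | succ n ih =>
      rw [pow_succ', LinearEquiv.mul_apply, hconj, LinearEquiv.charpoly_conj, ih]
  -- the sequences
  let ε : ℕ → ℝ := fun n => (d.factorial : ℝ) / (n : ℝ) ^ d
  let Y : ℕ → 𝔤 := fun n => φ ((ε n : ℝ) • (ω ^ ((d : ℤ) - n) * ζ))
  let S : ℕ → 𝔤 := fun n =>
    ∑ l ∈ range (d + 1), (ε n * q l n) • ((nw A ω)^[l] φ (ω ^ ((d : ℤ) - l) * ζ))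
  have hφc : Continuous φ := LinearMap.continuous_of_finiteDimensional φ
  have hε : Tendsto ε atTop (𝓝 0) := by
    have h1 : Tendsto (fun n : ℕ => (n : ℝ) ^ d) atTop atTop :=
      (tendsto_pow_atTop (by omega)).comp tendsto_natCast_atTop_atTop
    exact Tendsto.div_atTop tendsto_const_nhds h1
  have hY : Tendsto Y atTop (𝓝 0) := by
    have h1 : Tendsto (fun n : ℕ => (ε n : ℝ) • (ω ^ ((d : ℤ) - n) * ζ)) atTop (𝓝 0) := by
      have h2 : Tendsto (fun n : ℕ => |ε n| * ‖ζ‖) atTop (𝓝 0) := by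
        have h3 := hε.abs.mul_const ‖ζ‖
        rwa [abs_zero, zero_mul] at h3
      refine squeeze_zero_norm (fun n => ?_) h2
      rw [norm_smul, norm_mul, norm_zpow, hω, one_zpow, one_mul, Real.norm_eq_abs]
    have h4 := (hφc.tendsto 0).comp h1
    rwa [map_zero] at h4
  have hS : Tendsto S atTop (𝓝 ((nw A ω)^[d] φ ζ)) := by
    have h1 : Tendsto S atTop (𝓝 (∑ l ∈ range (d + 1),
        (if l = d then (1 : ℝ) else 0) • ((nw A ω)^[l] φ (ω ^ ((d : ℤ) - l) * ζ)))) := by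
      refine tendsto_finsetSum _ fun l hl => ?_
      refine Tendsto.smul_const ?_ _
      by_cases hld : l = d
      · rw [if_pos hld]
        subst hld
        exact coef_top (q l) C l hd htop
      · rw [if_neg hld]
        have hl' : l < d := by
          have := Finset.mem_range.1 hl
          omega
        exact coef_low (q l) C d hd (hlow l hl')
    convert h1 using 2
    rw [Finset.sum_eq_single d]
    · simp
    · intro l _ hl
      rw [if_neg hl, zero_smul]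
    · intro h
      exact (h (by simp)).elim
  have hSY : ∀ n, D (S n) = D ((A ^ (n : ℤ)) (Y n)) := by
    intro n
    have h1 := hexp n ((ε n : ℝ) • (ω ^ ((d : ℤ) - n) * ζ))
    have h2 : (A ^ (n : ℤ)) (Y n) - S n ∈ K := by
      have h3 : S n = ∑ l ∈ range (d + 1),
          q l n • ((nw A ω)^[l] φ (ω ^ ((n : ℤ) - l) * ((ε n : ℝ) • (ω ^ ((d : ℤ) - n) * ζ)))) := by
        refine Finset.sum_congr rfl fun l _ => ?_
        have h4 : ω ^ ((n : ℤ) - l) * ((ε n : ℝ) • (ω ^ ((d : ℤ) - n) * ζ)) =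
            (ε n : ℝ) • (ω ^ ((d : ℤ) - l) * ζ) := by
          rw [mul_smul_comm, ← mul_assoc, ← zpow_add₀ hω0]
          congr 3
          ring
        rw [h4, map_smul, smul_smul, mul_comm]
      rw [h3]
      exact h1
    have h5 := hDK _ h2
    rw [map_sub, sub_eq_zero] at h5
    exact h5.symm
  obtain ⟨c, hc⟩ := nil_limit D S Y _ hS hY (Eventually.of_forall fun n => by
    rw [hSY, hchar])
  refine ⟨c, fun y => ?_⟩
  have hpow : ∀ (e : ℕ) (y : 𝔤), (D ((nw A ω)^[d] φ ζ) ^ e) (π y) =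
      π (((LieAlgebra.ad ℝ 𝔤 ((nw A ω)^[d] φ ζ)) ^ e) y) := by
    intro e
    induction e with
    | zero => intro y; simp
    | succ e ih =>
      intro y
      rw [pow_succ, pow_succ, Module.End.mul_apply, Module.End.mul_apply, hD, ih]
      rfl
  have h1 := hpow c y
  rw [hc, LinearMap.zero_apply] at h1
  exact (hπ0 _).1 h1.symm

end Pool.Agent.W672.LY
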